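import Pool.Agent.Results.MP_325c15_al.CIQuotient

/-!
# Quotients of complete intersection numerical semigroups: all large divisors, and common quotients

The starting result `CIQuotient` says that every numerical semigroup `T` is `S/d` for some complete
intersection `S` and some `d`. Here:

* for every `T` every sufficiently large integer `d` is possible, and the set of the possible `d`
  is closed under taking multiples;
* finitely many numerical semigroups are quotients of one and the same complete intersection, by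
  pairwise coprime divisors which are coprime to any given integer.

Key lemma: if `S = μ S1 + lam S2` is a gluing, then `S / (μ a + lam b) = (S1 / a) ∩ (S2 / b)`, as
soon as `S1 / a` contains all `x ≥ μ / b` and `S2 / b` contains all `x ≥ lam / a`.
-/

set_option autoImplicit false

namespace Pool.Agent.Y188.NS

open Pool.Agent.Results.MP_325c15_al.CIQuotient

/-- the quotient of a gluing by `μ a + lam b` -/
lemma glue_quot {μ lam a b : ℕ} {S1 S2 : AddSubmonoid ℕ} (hl : 0 < lam)
    (hc : Nat.Coprime lam μ) (hlS : lam ∈ S1) (hμS : μ ∈ S2)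
    (h1 : ∀ x, μ ≤ b * x → a * x ∈ S1) (h2 : ∀ x, lam ≤ a * x → b * x ∈ S2) (x : ℕ) :
    (μ * a + lam * b) * x ∈ glue μ S1 lam S2 ↔ (a * x ∈ S1 ∧ b * x ∈ S2) := by
  rw [mem_glue]
  constructor
  · rintro ⟨s, hs, t, ht, hst⟩
    have heq : μ * s + lam * t = μ * (a * x) + lam * (b * x) := by rw [← hst]; ring
    rcases le_total (a * x) s with hle | hle
    · obtain ⟨p, hp1, hp2⟩ := rep_diff hl hc heq hle
      have hb : b * x ∈ S2 := by
        rw [hp2]
        apply S2.add_mem ht
        have := AddSubmonoid.nsmul_mem S2 hμS p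
        simpa using this
      rcases Nat.eq_zero_or_pos p with hp | hp
      · subst hp
        rw [zero_mul, add_zero] at hp1
        exact ⟨hp1 ▸ hs, hb⟩
      · refine ⟨h1 x ?_, hb⟩
        have h3 : μ ≤ p * μ := Nat.le_mul_of_pos_left μ hp
        omega
    · obtain ⟨p, hp1, hp2⟩ := rep_diff hl hc heq.symm hle
      have ha : a * x ∈ S1 := by
        rw [hp1]
        apply S1.add_mem hs
        have := AddSubmonoid.nsmul_mem S1 hlS p
        simpa using this
      rcases Nat.eq_zero_or_pos p with hp | hp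
      · subst hp
        rw [zero_mul, add_zero] at hp2
        exact ⟨ha, hp2 ▸ ht⟩
      · refine ⟨ha, h2 x ?_⟩
        have h3 : lam ≤ p * lam := Nat.le_mul_of_pos_left lam hp
        omega
  · rintro ⟨h3, h4⟩
    exact ⟨a * x, h3, b * x, h4, by ring⟩

/-- `T` is the quotient of a complete intersection by `d` -/
def Q (T : AddSubmonoid ℕ) (d : ℕ) : Prop :=
  ∃ S : AddSubmonoid ℕ, {n : ℕ | n ∉ S}.Finite ∧ WCI S ∧ ∀ x : ℕ, x ∈ T ↔ d * x ∈ S

lemma top_cofinite : {n : ℕ | n ∉ (⊤ : AddSubmonoid ℕ)}.Finite := by simp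

/-- the possible divisors are closed under multiples -/
lemma Q_mul {T : AddSubmonoid ℕ} {d : ℕ} (h : Q T d) {k : ℕ} (hk : 0 < k) : Q T (k * d) := by
  obtain ⟨S1, hf, hw, hT⟩ := h
  obtain ⟨C1, hC1⟩ := cofinite_bound hf
  set lam := k * C1 + 1 with hlam
  have hl : 0 < lam := Nat.succ_pos _
  have hc : Nat.Coprime lam k := by
    rw [hlam, Nat.coprime_mul_left_add_left]
    exact Nat.coprime_one_left k
  have hlS : lam ∈ S1 := by
    apply hC1
    have : 1 * C1 ≤ k * C1 := Nat.mul_le_mul_right _ hk
    omega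
  refine ⟨glue k S1 lam ⊤, glue_cofinite hl hc hf top_cofinite,
    glue_wci hk hl hc hw top_wci hlS (AddSubmonoid.mem_top _), fun x => ?_⟩
  have h1 := glue_quot (a := d) (b := 0) hl hc hlS (AddSubmonoid.mem_top k)
    (fun y hy => by
      rw [zero_mul] at hy
      omega) (fun y _ => AddSubmonoid.mem_top _) x
  rw [mul_zero, add_zero] at h1
  rw [h1, hT]
  exact ⟨fun h => ⟨h, AddSubmonoid.mem_top _⟩, fun h => h.1⟩

/-- large integers coprime to a number above the conductor are possible divisors -/
lemma Q_coprime {T S1 : AddSubmonoid ℕ} {a C1 μ D : ℕ} (hf : {n : ℕ | n ∉ S1}.Finite)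
    (hw : WCI S1) (hT : ∀ x : ℕ, x ∈ T ↔ a * x ∈ S1) (hC1 : ∀ n, C1 ≤ n → n ∈ S1)
    (hμ : 0 < μ) (hCT : ∀ n, μ ≤ n → n ∈ T) (hD : μ * a + C1 + 1 ≤ D)
    (hco : Nat.Coprime D μ) : Q T D := by
  obtain ⟨lam, hlam⟩ : ∃ lam, D = μ * a + lam := ⟨D - μ * a, by omega⟩
  have hl : 0 < lam := by omega
  have hc : Nat.Coprime lam μ := by
    rw [hlam, Nat.coprime_mul_left_add_left] at hco
    exact hco
  have hlS : lam ∈ S1 := hC1 _ (by omega)
  refine ⟨glue μ S1 lam ⊤, glue_cofinite hl hc hf top_cofinite,
    glue_wci hμ hl hc hw top_wci hlS (AddSubmonoid.mem_top _), fun x => ?_⟩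
  have h1 := glue_quot (a := a) (b := 1) hl hc hlS (AddSubmonoid.mem_top μ)
    (fun y hy => by
      rw [one_mul] at hy
      exact (hT y).1 (hCT y hy)) (fun y _ => AddSubmonoid.mem_top _) x
  rw [mul_one, ← hlam] at h1
  rw [h1, hT]
  exact ⟨fun h => ⟨h, AddSubmonoid.mem_top _⟩, fun h => h.1⟩

/-- every large integer is a possible divisor -/
lemma Q_large (T : AddSubmonoid ℕ) (hT : {n : ℕ | n ∉ T}.Finite) : ∃ d₀, ∀ d, d₀ ≤ d → Q T d := by
  obtain ⟨CT, hCT⟩ := cofinite_bound hT
  obtain ⟨S1, a, hf, hw, ha, hTS⟩ := K_all T hT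
  obtain ⟨C1, hC1⟩ := cofinite_bound hf
  obtain ⟨P, hP, hPp⟩ := Nat.exists_infinite_primes (CT + 1)
  obtain ⟨R, hR, hRp⟩ := Nat.exists_infinite_primes (P + 1)
  have hbase : ∀ μ D : ℕ, CT ≤ μ → 0 < μ → μ ≤ R → R * a + C1 + 1 ≤ D → Nat.Coprime D μ →
      Q T D := by
    intro μ D h1 h2 h3 h4 h5
    refine Q_coprime hf hw hTS hC1 h2 (fun n hn => hCT n (by omega)) ?_ h5
    have : μ * a ≤ R * a := Nat.mul_le_mul_right a h3
    omega
  set N := R * a + C1 + 1 with hN
  refine ⟨N * N, fun d hd => ?_⟩
  have hd0 : d ≠ 0 := by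
    have : 0 < N * N := Nat.mul_pos (by omega) (by omega)
    omega
  obtain ⟨k, e, he, hde⟩ := Nat.exists_eq_pow_mul_and_not_dvd hd0 P hPp.ne_one
  have he0 : 0 < e := by
    rcases Nat.eq_zero_or_pos e with h | h
    · rw [h] at he
      exact absurd (dvd_zero P) he
    · exact h
  rcases Nat.lt_or_ge e N with hlt | hge
  · have h1 : N ≤ P ^ k := by
      by_contra hcon
      push Not at hcon
      have h2 : P ^ k * e < N * N := Nat.mul_lt_mul'' hcon hlt
      omega
    have h3 : Q T (P ^ k) := by
      refine hbase R _ (by omega) hRp.pos le_rfl h1 ?_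
      apply Nat.Coprime.pow_left
      rw [Nat.coprime_primes hPp hRp]
      omega
    rw [hde, mul_comm]
    exact Q_mul h3 he0
  · have h3 : Q T e := by
      refine hbase P _ (by omega) hPp.pos (by omega) hge ?_
      exact ((Nat.Prime.coprime_iff_not_dvd hPp).2 he).symm
    rw [hde]
    exact Q_mul h3 (Nat.pow_pos hPp.pos)

/-- finitely many numerical semigroups are quotients of one complete intersection -/
lemma common (k : ℕ) : ∀ (T : Fin k → AddSubmonoid ℕ), (∀ i, {n : ℕ | n ∉ T i}.Finite) →
    ∀ m : ℕ, 0 < m → ∃ (S : AddSubmonoid ℕ) (d : Fin k → ℕ), {n : ℕ | n ∉ S}.Finite ∧ WCI S ∧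
      (∀ i, 2 ≤ d i) ∧ (∀ i, Nat.Coprime (d i) m) ∧ (∀ i j, i ≠ j → Nat.Coprime (d i) (d j)) ∧
      ∀ i x, x ∈ T i ↔ d i * x ∈ S := by
  induction k with
  | zero =>
    intro T _ m _
    exact ⟨⊤, fun i => i.elim0, top_cofinite, top_wci, fun i => i.elim0, fun i => i.elim0,
      fun i => i.elim0, fun i => i.elim0⟩
  | succ k ih =>
    intro T hT m hm
    obtain ⟨S1, a, hf1, hw1, ha2, ham, haa, hTa⟩ := ih (fun i => T i.succ) (fun i => hT _) m hm
    obtain ⟨S2, b, hf2, hw2, hb1, hTb⟩ := K_all (T 0) (hT 0)
    obtain ⟨C1, hC1⟩ := cofinite_bound hf1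
    obtain ⟨C2, hC2⟩ := cofinite_bound hf2
    have hCT' : ∀ i, ∃ C, ∀ n, C ≤ n → n ∈ T i := fun i => cofinite_bound (hT i)
    choose CTf hCTf using hCT'
    set CT := ∑ i, CTf i with hCTd
    have hCT : ∀ i n, CT ≤ n → n ∈ T i := by
      intro i n hn
      apply hCTf
      have : CTf i ≤ CT := Finset.single_le_sum (fun _ _ => Nat.zero_le _) (Finset.mem_univ i)
      omega
    set Pa := ∏ i, a i with hPa
    have hPa1 : 1 ≤ Pa := Nat.one_le_iff_ne_zero.2
      (Finset.prod_ne_zero_iff.2 fun i _ => by have := ha2 i; omega)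
    have haP : ∀ i, a i ≤ Pa := fun i =>
      Nat.le_of_dvd hPa1 (Finset.dvd_prod_of_mem _ (Finset.mem_univ i))
    -- the new coefficient
    set A := 1 + m * Pa * (C1 + Pa * b + 1) with hA
    have hmPa : 1 ≤ m * Pa := Nat.mul_pos hm hPa1
    have hA1 : C1 + Pa * b + 1 < A := by
      have : 1 * (C1 + Pa * b + 1) ≤ m * Pa * (C1 + Pa * b + 1) := Nat.mul_le_mul_right _ hmPa
      omega
    have hAm : Nat.Coprime A m := by
      rw [hA, mul_assoc, Nat.coprime_add_mul_left_left]
      exact Nat.coprime_one_left m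
    have hAa : ∀ i, Nat.Coprime A (a i) := by
      intro i
      obtain ⟨c, hc⟩ : a i ∣ Pa := Finset.dvd_prod_of_mem _ (Finset.mem_univ i)
      have h0 : ∀ X, m * Pa * X = a i * (m * c * X) := by
        intro X
        rw [hc]
        ring
      have : A = 1 + a i * (m * c * (C1 + Pa * b + 1)) := by
        rw [hA, h0]
      rw [this, Nat.coprime_add_mul_left_left]
      exact Nat.coprime_one_left _
    let a' : Fin (k + 1) → ℕ := Fin.cons A a
    let b' : Fin (k + 1) → ℕ := Fin.cons b (fun _ => C2 + 1)
    have ha'0 : a' 0 = A := rfl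
    have ha's : ∀ i : Fin k, a' i.succ = a i := fun i => rfl
    have hb'0 : b' 0 = b := rfl
    have hb's : ∀ i : Fin k, b' i.succ = C2 + 1 := fun i => rfl
    have ha'2 : ∀ i, 2 ≤ a' i := by
      intro i
      refine Fin.cases ?_ (fun j => ?_) i
      · rw [ha'0]; omega
      · rw [ha's]; exact ha2 j
    have ha'm : ∀ i, Nat.Coprime (a' i) m := by
      intro i
      refine Fin.cases ?_ (fun j => ?_) i
      · rw [ha'0]; exact hAm
      · rw [ha's]; exact ham j
    have ha'c : ∀ i j, i ≠ j → Nat.Coprime (a' i) (a' j) := by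
      intro i j
      refine Fin.cases ?_ (fun i' => ?_) i <;> refine Fin.cases ?_ (fun j' => ?_) j
      · intro h; exact absurd rfl h
      · intro _; rw [ha'0, ha's]; exact hAa j'
      · intro _; rw [ha'0, ha's]; exact (hAa i').symm
      · intro h
        rw [ha's, ha's]
        exact haa i' j' (fun h' => h (by rw [h']))
    have hdelta : ∀ i j, i ≠ j → (a' i : ℤ) * b' j - a' j * b' i ≠ 0 := by
      have key : ∀ j : Fin k, a j * b < A * (C2 + 1) := by
        intro j
        have h1 : a j * b ≤ Pa * b := Nat.mul_le_mul_right b (haP j)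
        have h2 : A * 1 ≤ A * (C2 + 1) := Nat.mul_le_mul_left A (by omega)
        omega
      intro i j
      refine Fin.cases ?_ (fun i' => ?_) i <;> refine Fin.cases ?_ (fun j' => ?_) j
      · intro h; exact absurd rfl h
      · intro _
        rw [ha'0, ha's, hb'0, hb's]
        have := key j'
        zify at this
        push_cast
        intro h
        linarith
      · intro _
        rw [ha'0, ha's, hb'0, hb's]
        have := key i'
        zify at this
        push_cast
        intro h
        linarith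
      · intro h
        rw [ha's, ha's, hb's, hb's, ← sub_mul]
        apply mul_ne_zero
        · intro h1
          have h2 : a i' = a j' := by
            have : (a i' : ℤ) = a j' := by linarith
            exact_mod_cast this
          have h3 := haa i' j' (fun h' => h (by rw [h']))
          rw [h2, Nat.coprime_self] at h3
          have := ha2 j'
          omega
        · have : (0 : ℤ) < ((C2 + 1 : ℕ) : ℤ) := by exact_mod_cast Nat.succ_pos C2
          exact this.ne'
    -- a common bound
    set B := m + (∑ i, a' i + 1) * (∑ i, b' i + 1) with hB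
    have hale : ∀ i, a' i ≤ ∑ i, a' i := fun i =>
      Finset.single_le_sum (f := a') (fun _ _ => Nat.zero_le _) (Finset.mem_univ i)
    have hble : ∀ i, b' i ≤ ∑ i, b' i := fun i =>
      Finset.single_le_sum (f := b') (fun _ _ => Nat.zero_le _) (Finset.mem_univ i)
    have hprod : ∀ i j, a' i * b' j ≤ B := by
      intro i j
      have : a' i * b' j ≤ (∑ i, a' i + 1) * (∑ i, b' i + 1) :=
        Nat.mul_le_mul ((hale i).trans (Nat.le_succ _)) ((hble j).trans (Nat.le_succ _))
      omega
    have hbB : ∀ i, b' i ≤ B := by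
      intro i
      have : 1 * b' i ≤ (∑ i, a' i + 1) * (∑ i, b' i + 1) :=
        Nat.mul_le_mul (by omega) ((hble i).trans (Nat.le_succ _))
      omega
    set lam := B.factorial * (C1 + A * CT + 1) with hlam
    have hfac : 0 < B.factorial := Nat.factorial_pos B
    have hlam1 : C1 + A * CT + 1 ≤ lam := Nat.le_mul_of_pos_left _ hfac
    have hl : 0 < lam := by omega
    set μ := 1 + lam * (C2 + (C2 + 1) * CT + 1) with hμd
    have hμ1 : C2 + (C2 + 1) * CT + 1 < μ := by
      have : 1 * (C2 + (C2 + 1) * CT + 1) ≤ lam * (C2 + (C2 + 1) * CT + 1) :=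
        Nat.mul_le_mul_right _ hl
      omega
    have hμ : 0 < μ := by omega
    have hc : Nat.Coprime lam μ := by
      apply Nat.Coprime.symm
      rw [hμd, Nat.coprime_add_mul_left_left]
      exact Nat.coprime_one_left _
    have hlS : lam ∈ S1 := hC1 _ (by omega)
    have hμS : μ ∈ S2 := hC2 _ (by omega)
    let d : Fin (k + 1) → ℕ := fun i => μ * a' i + lam * b' i
    -- primes up to `B` divide `lam`
    have hpB : ∀ p : ℕ, p.Prime → p ≤ B → p ∣ lam := fun p hp h =>
      ((hp.dvd_factorial).2 h).trans (Dvd.intro _ rfl)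
    have hpμ : ∀ p : ℕ, p.Prime → p ∣ lam → ¬ p ∣ μ := by
      intro p hp h1 h2
      have := Nat.dvd_gcd h1 h2
      rw [hc] at this
      exact hp.one_lt.ne' (Nat.dvd_one.1 this)
    have hpa : ∀ (p : ℕ) (i), p.Prime → p ∣ lam → p ∣ d i → p ∣ a' i := by
      intro p i hp h1 h2
      have h3 : p ∣ μ * a' i := (Nat.dvd_add_left (h1.mul_right (b' i))).1 h2
      exact (hp.dvd_mul.1 h3).resolve_left (hpμ p hp h1)
    refine ⟨glue μ S1 lam S2, d, glue_cofinite hl hc hf1 hf2,
      glue_wci hμ hl hc hw1 hw2 hlS hμS, ?_, ?_, ?_, ?_⟩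
    · intro i
      have h1 := ha'2 i
      have h2 : 1 * a' i ≤ μ * a' i := Nat.mul_le_mul_right _ hμ
      change 2 ≤ μ * a' i + lam * b' i
      omega
    · intro i
      rw [Nat.coprime_iff_gcd_eq_one]
      by_contra hne
      obtain ⟨p, hp, hpg⟩ := Nat.exists_prime_and_dvd hne
      have h1 : p ∣ d i := hpg.trans (Nat.gcd_dvd_left _ _)
      have h2 : p ∣ m := hpg.trans (Nat.gcd_dvd_right _ _)
      have h3 : p ≤ B := (Nat.le_of_dvd hm h2).trans (by omega)
      have h4 := hpa p i hp (hpB p hp h3) h1
      have h5 := Nat.dvd_gcd h4 h2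
      rw [ha'm i] at h5
      exact hp.one_lt.ne' (Nat.dvd_one.1 h5)
    · intro i j hij
      rw [Nat.coprime_iff_gcd_eq_one]
      by_contra hne
      obtain ⟨p, hp, hpg⟩ := Nat.exists_prime_and_dvd hne
      have h1 : p ∣ d i := hpg.trans (Nat.gcd_dvd_left _ _)
      have h2 : p ∣ d j := hpg.trans (Nat.gcd_dvd_right _ _)
      have hpl : p ∣ lam := by
        by_cases hpm : p ∣ μ
        · exfalso
          have h3 : ¬ p ∣ lam := fun h => hpμ p hp h hpm
          have h4 : p ∣ lam * b' i := (Nat.dvd_add_right (hpm.mul_right (a' i))).1 h1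
          have h5 : p ∣ b' i := (hp.dvd_mul.1 h4).resolve_left h3
          have hb'pos : 0 < b' i := by
            refine Fin.cases ?_ (fun j => ?_) i
            · rw [hb'0]; exact hb1
            · rw [hb's]; exact Nat.succ_pos _
          exact h3 (hpB p hp ((Nat.le_of_dvd hb'pos h5).trans (hbB i)))
        · have h3 : (p : ℤ) ∣ μ * ((a' i : ℤ) * b' j - a' j * b' i) := by
            have h4 : (μ : ℤ) * ((a' i : ℤ) * b' j - a' j * b' i) =
                (d i : ℤ) * b' j - (d j : ℤ) * b' i := by
              simp only [d]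
              push_cast
              ring
            rw [h4]
            exact dvd_sub ((Int.natCast_dvd_natCast.2 h1).mul_right _)
              ((Int.natCast_dvd_natCast.2 h2).mul_right _)
          have hpz : Prime (p : ℤ) := Nat.prime_iff_prime_int.1 hp
          have h5 : (p : ℤ) ∣ (a' i : ℤ) * b' j - a' j * b' i :=
            (hpz.dvd_mul.1 h3).resolve_left (fun h => hpm (Int.natCast_dvd_natCast.1 h))
          apply hpB p hp
          have h6 := Int.le_of_dvd (abs_pos.2 (hdelta i j hij)) ((dvd_abs _ _).2 h5)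
          have h7 : |(a' i : ℤ) * b' j - a' j * b' i| ≤ B := by
            have h8 : ((a' i * b' j : ℕ) : ℤ) ≤ B := by exact_mod_cast hprod i j
            have h9 : ((a' j * b' i : ℕ) : ℤ) ≤ B := by exact_mod_cast hprod j i
            push_cast at h8 h9
            rw [abs_le]
            constructor
            · have : (0 : ℤ) ≤ (a' i : ℤ) * b' j := by positivity
              linarith
            · have : (0 : ℤ) ≤ (a' j : ℤ) * b' i := by positivity
              linarith
          exact_mod_cast h6.trans h7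
      have h3 := hpa p i hp hpl h1
      have h4 := hpa p j hp hpl h2
      have h5 := Nat.dvd_gcd h3 h4
      rw [ha'c i j hij] at h5
      exact hp.one_lt.ne' (Nat.dvd_one.1 h5)
    · intro i x
      refine Fin.cases ?_ (fun i' => ?_) i
      · have hAx : A * x ∈ S1 := by
          rcases Nat.eq_zero_or_pos x with h | h
          · rw [h, mul_zero]; exact S1.zero_mem
          · apply hC1
            have : A * 1 ≤ A * x := Nat.mul_le_mul_left A h
            omega
        have h1 := glue_quot (a := A) (b := b) hl hc hlS hμS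
          (fun y hy => by
            apply hC1
            have hy0 : 0 < y := by
              rcases Nat.eq_zero_or_pos y with h | h
              · rw [h, mul_zero] at hy; omega
              · exact h
            have : A * 1 ≤ A * y := Nat.mul_le_mul_left A hy0
            omega)
          (fun y hy => by
            apply (hTb y).1
            apply hCT
            by_contra hcon
            push Not at hcon
            have : A * y ≤ A * CT := Nat.mul_le_mul_left A hcon.le
            omega) x
        change x ∈ T 0 ↔ (μ * A + lam * b) * x ∈ glue μ S1 lam S2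
        rw [h1]
        exact ⟨fun h => ⟨hAx, (hTb x).1 h⟩, fun h => (hTb x).2 h.2⟩
      · have hbx : ∀ y, (C2 + 1) * y ∈ S2 := by
          intro y
          rcases Nat.eq_zero_or_pos y with h | h
          · rw [h, mul_zero]; exact S2.zero_mem
          · apply hC2
            have : (C2 + 1) * 1 ≤ (C2 + 1) * y := Nat.mul_le_mul_left _ h
            omega
        have h1 := glue_quot (a := a i') (b := C2 + 1) hl hc hlS hμS
          (fun y hy => by
            apply (hTa i' y).1
            apply hCT
            by_contra hcon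
            push Not at hcon
            have : (C2 + 1) * y ≤ (C2 + 1) * CT := Nat.mul_le_mul_left _ hcon.le
            omega)
          (fun y _ => hbx y) x
        change x ∈ T i'.succ ↔ (μ * a i' + lam * (C2 + 1)) * x ∈ glue μ S1 lam S2
        rw [h1]
        exact ⟨fun h => ⟨(hTa i' x).1 h, hbx x⟩, fun h => (hTa i' x).2 h.1⟩

/-- complete intersections in the sense of minimal presentations are so in the weak sense -/
lemma isCI_wci {S : AddSubmonoid ℕ} (hf : {n : ℕ | n ∉ S}.Finite)
    (h : IsCompleteIntersection S) : WCI S := by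
  obtain ⟨e, n, -, hr, ⟨⟨ρ, hρc, hρ⟩, -⟩⟩ := h
  have hmem : ∀ i, n i ∈ minGens S := fun i => hr ▸ Set.mem_range_self i
  have hpos : ∀ i, 0 < n i := fun i => Nat.pos_of_ne_zero (hmem i).2.1
  have hrep : ∀ x : ℕ, x ∈ S → ∃ a : Fin e → ℕ, val n a = x := by
    intro x
    induction x using Nat.strong_induction_on with
    | _ x ih =>
      intro hx
      rcases Nat.eq_zero_or_pos x with h0 | h0
      · exact ⟨0, by rw [h0, val_zero]⟩
      · by_cases hxm : x ∈ minGens S
        · rw [← hr] at hxm
          obtain ⟨i, hi⟩ := hxm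
          exact ⟨Pi.single i 1, by rw [val_single, one_mul, hi]⟩
        · have h1 : ∃ a ∈ S, ∃ b ∈ S, a + b = x ∧ a ≠ 0 ∧ b ≠ 0 := by
            by_contra hcon
            push Not at hcon
            apply hxm
            refine ⟨hx, h0.ne', fun a ha b hb hab => ?_⟩
            by_cases ha0 : a = 0
            · exact Or.inl ha0
            · exact Or.inr (hcon a ha b hb hab ha0)
          obtain ⟨a, ha, b, hb, hab, ha0, hb0⟩ := h1
          obtain ⟨u, hu⟩ := ih a (by omega) ha
          obtain ⟨v, hv⟩ := ih b (by omega) hb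
          exact ⟨u + v, by rw [val_add, hu, hv, hab]⟩
  have he : 1 ≤ e := by
    obtain ⟨C, hC⟩ := cofinite_bound hf
    obtain ⟨a, ha⟩ := hrep (C + 1) (hC _ (Nat.le_succ C))
    rcases Nat.eq_zero_or_pos e with h0 | h0
    · subst h0
      simp [val] at ha
    · exact h0
  refine ⟨Fin e, inferInstance, inferInstance, n, ρ, hpos, fun x => ⟨hrep x, ?_⟩, hρ, ?_⟩
  · rintro ⟨a, rfl⟩
    apply AddSubmonoid.sum_mem
    intro i _
    have := AddSubmonoid.nsmul_mem S (hmem i).1 (a i)
    simpa using this
  · rw [Fintype.card_fin, hρc]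
    omega

end Pool.Agent.Y188.NS
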